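import Mathlib

set_option autoImplicit false

/-!
For the almost Golomb sequence `a_r` of order `r` one has `limsup a_r(n) / n ≤ 115 r^(-1/3)`; in
particular this limsup tends to `0` as `r → ∞`. This holds for every nondecreasing sequence of
positive integers with `a (a(n) + ... + a(n-r+1)) = n`; the minimality of the terms is not used.
-/

open Filter Topology

namespace Pool.Agent.Results.MP_04502c_nt.LimsupDecay

/-- The window sum `a(n) + a(n-1) + ... + a(n-r+1)`.  The subtraction is the truncated one of `ℕ`;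
for sequences with `a 0 = 0` this is the convention `a(k) = 0` for `k ≤ 0`. -/
def win (r : ℕ) (a : ℕ → ℕ) (n : ℕ) : ℕ := ∑ i ∈ Finset.range r, a (n - i)

/-- The defining property of the almost Golomb sequences without the minimality requirement:
`a 0 = 0` (convention), the terms `a n`, `n ≥ 1`, are positive and nondecreasing, and
`a (a(n) + ... + a(n-r+1)) = n` for all `n ≥ 1`. The almost Golomb sequence `a_r` of order `r` is
one of these sequences (the one whose terms are chosen as small as possible). -/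
structure IsNested (r : ℕ) (a : ℕ → ℕ) : Prop where
  zero : a 0 = 0
  pos : ∀ n, 1 ≤ n → 1 ≤ a n
  mono : ∀ m n, 1 ≤ m → m ≤ n → a m ≤ a n
  nested : ∀ n, 1 ≤ n → a (win r a n) = n

/-- `limsup_{n → ∞} a(n) / n`. -/
noncomputable def Lmax (a : ℕ → ℕ) : ℝ := limsup (fun n : ℕ => (a n : ℝ) / n) atTop

namespace Aux

variable {r : ℕ} {a : ℕ → ℕ}

theorem monotone (h : IsNested r a) : Monotone a := by
  intro m n hmn
  rcases Nat.eq_zero_or_pos m with rfl | hm
  · rw [h.zero]; exact Nat.zero_le _
  · exact h.mono m n hm hmn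

theorem nested' (h : IsNested r a) (n : ℕ) : a (win r a n) = n := by
  rcases Nat.eq_zero_or_pos n with rfl | hn
  · have : win r a 0 = 0 := by
      unfold win
      apply Finset.sum_eq_zero
      intro i _
      rw [Nat.zero_sub, h.zero]
    rw [this, h.zero]
  · exact h.nested n hn

theorem win_strictMono (h : IsNested r a) : StrictMono (win r a) := by
  have h1 : Monotone (win r a) := by
    intro m n hmn
    exact Finset.sum_le_sum fun i _ => monotone h (Nat.sub_le_sub_right hmn i)
  apply h1.strictMono_of_injective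
  intro m n hmn
  rw [← nested' h m, ← nested' h n, hmn]

theorem le_win (h : IsNested r a) (n : ℕ) : n ≤ win r a n := (win_strictMono h).id_le n

theorem a_le (h : IsNested r a) (n : ℕ) : a n ≤ n := by
  have h1 := monotone h (le_win h n)
  rwa [nested' h n] at h1

/-- `m < S(a(m) + 1)` -/
theorem lt_win (h : IsNested r a) (m : ℕ) : m < win r a (a m + 1) := by
  by_contra h1
  push Not at h1
  have h2 := monotone h h1
  rw [nested' h] at h2
  omega

/-- `S(a(m) - 1) ≤ m` -/
theorem win_le (h : IsNested r a) (m : ℕ) (hm : 1 ≤ m) : win r a (a m - 1) ≤ m := by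
  by_contra h1
  push Not at h1
  have h2 := monotone h h1.le
  rw [nested' h] at h2
  have := h.pos m hm
  omega

theorem win_le_r (h : IsNested r a) (n : ℕ) : win r a n ≤ r * a n := by
  unfold win
  calc ∑ i ∈ Finset.range r, a (n - i) ≤ ∑ i ∈ Finset.range r, a n :=
        Finset.sum_le_sum fun i _ => monotone h (Nat.sub_le n i)
    _ = r * a n := by simp

theorem win_le_n (h : IsNested r a) (n : ℕ) : win r a n ≤ n * a n := by
  unfold win
  calc ∑ i ∈ Finset.range r, a (n - i) ≤ ∑ i ∈ Finset.range r, (if i < n then a n else 0) := by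
        refine Finset.sum_le_sum fun i _ => ?_
        split_ifs with hi
        · exact monotone h (Nat.sub_le n i)
        · rw [show n - i = 0 by omega, h.zero]
    _ = ∑ i ∈ (Finset.range r).filter (fun i => i < n), a n := by rw [Finset.sum_filter]
    _ ≤ n * a n := by
        rw [Finset.sum_const, smul_eq_mul]
        apply Nat.mul_le_mul_right
        calc ((Finset.range r).filter (fun i => i < n)).card ≤ (Finset.range n).card := by
              apply Finset.card_le_card
              intro i hi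
              rw [Finset.mem_filter] at hi
              exact Finset.mem_range.2 hi.2
          _ = n := Finset.card_range n

theorem win_ge (h : IsNested r a) (n w : ℕ) (hw : w ≤ r) (hwn : w ≤ n) :
    (w + 1) / 2 * a ((n + 1) / 2) ≤ win r a n := by
  rcases Nat.eq_zero_or_pos w with rfl | hw0
  · simp
  unfold win
  calc (w + 1) / 2 * a ((n + 1) / 2) = ∑ i ∈ Finset.range ((w + 1) / 2), a ((n + 1) / 2) := by simp
    _ ≤ ∑ i ∈ Finset.range ((w + 1) / 2), a (n - i) := by
        refine Finset.sum_le_sum fun i hi => monotone h ?_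
        rw [Finset.mem_range] at hi
        omega
    _ ≤ ∑ i ∈ Finset.range r, a (n - i) := by
        apply Finset.sum_le_sum_of_subset
        intro i
        simp only [Finset.mem_range]
        omega

theorem win_ge_r (h : IsNested r a) (n : ℕ) : r * a (n + 1 - r) ≤ win r a n := by
  unfold win
  calc r * a (n + 1 - r) = ∑ i ∈ Finset.range r, a (n + 1 - r) := by simp
    _ ≤ ∑ i ∈ Finset.range r, a (n - i) := by
        refine Finset.sum_le_sum fun i hi => monotone h ?_
        rw [Finset.mem_range] at hi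
        omega

/-- `a(j)` is at least `√j / 2` -/
theorem sq_ge (h : IsNested r a) (j : ℕ) (hj : 1 ≤ j) : j ≤ 4 * a j ^ 2 := by
  have h1 := lt_win h j
  have h2 := win_le_n h (a j + 1)
  have h3 := a_le h (a j + 1)
  have h4 := h.pos j hj
  nlinarith

/-- the window sums in the initial range -/
theorem cube_le (h : IsNested r a) (n : ℕ) (hn : n ≤ r) : n ^ 3 ≤ 32 * win r a n ^ 2 := by
  rcases Nat.eq_zero_or_pos n with rfl | hn0
  · simp
  have h1 := win_ge h n n hn le_rfl
  set j := (n + 1) / 2 with hj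
  have hj1 : 1 ≤ j := by omega
  have hj2 : n ≤ 2 * j := by omega
  have h2 := sq_ge h j hj1
  have h3 : (j * a j) ^ 2 ≤ win r a n ^ 2 := Nat.pow_le_pow_left h1 2
  have h4 : j ^ 3 ≤ 4 * (j * a j) ^ 2 := by
    calc j ^ 3 = j ^ 2 * j := by ring
      _ ≤ j ^ 2 * (4 * a j ^ 2) := Nat.mul_le_mul_left _ h2
      _ = _ := by ring
  have h5 : n ^ 3 ≤ (2 * j) ^ 3 := Nat.pow_le_pow_left hj2 3
  have h6 : (2 * j) ^ 3 = 8 * j ^ 3 := by ring
  omega

theorem cube_le' (h : IsNested r a) (m : ℕ) (hm : 1 ≤ m) (hmr : a m - 1 ≤ r) :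
    (a m - 1) ^ 3 ≤ 32 * m ^ 2 := by
  have h1 := cube_le h (a m - 1) hmr
  have h2 := win_le h m hm
  have h3 : win r a (a m - 1) ^ 2 ≤ m ^ 2 := Nat.pow_le_pow_left h2 2
  omega

/-- upper bound at the first scale -/
theorem upper_first (h : IsNested r a) (t : ℝ) (ht : 1 ≤ t) (htr : t ^ 3 = r) (i : ℕ)
    (hi : 1 ≤ i) (hir : i ≤ r + 1) : (a i : ℝ) ≤ 7 * t ^ 2 := by
  have h1 := cube_le' h i hi (by have := a_le h i; omega)
  have h2 : (((a i - 1 : ℕ) : ℝ)) ^ 3 ≤ 32 * (i : ℝ) ^ 2 := by exact_mod_cast h1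
  have h3 : (((a i - 1 : ℕ) : ℝ)) = (a i : ℝ) - 1 := by
    rw [Nat.cast_sub (h.pos i hi)]; simp
  rw [h3] at h2
  have h4 : (i : ℝ) ≤ r + 1 := by exact_mod_cast hir
  have h5 : (1 : ℝ) ≤ t ^ 3 := one_le_pow₀ ht
  have h6 : (i : ℝ) ≤ 2 * t ^ 3 := by rw [htr]; rw [htr] at h5; linarith
  have h7 : (i : ℝ) ^ 2 ≤ (2 * t ^ 3) ^ 2 := pow_le_pow_left₀ (by positivity) h6 2
  have h8 : ((a i : ℝ) - 1) ^ 3 ≤ (6 * t ^ 2) ^ 3 := by
    have : (0 : ℝ) ≤ t ^ 6 := by positivity
    nlinarith
  have h9 : (a i : ℝ) - 1 ≤ 6 * t ^ 2 := by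
    by_contra hc
    push Not at hc
    have := pow_lt_pow_left₀ hc (by positivity) (by norm_num : 3 ≠ 0)
    linarith
  nlinarith

/-- lower bound at the first scale -/
theorem lower_first (h : IsNested r a) (t : ℝ) (ht : 1 ≤ t) (htr : t ^ 3 = r) (j : ℕ)
    (hj : 1 ≤ j) (hjr : a j ≤ r) : (j : ℝ) ≤ 14 * t ^ 2 * a j := by
  have h1 := lt_win h j
  have h2 := win_le_n h (a j + 1)
  have h3 := upper_first h t ht htr (a j + 1) (by omega) (by omega)
  have h4 : (j : ℝ) ≤ ((a j + 1 : ℕ) : ℝ) * (a (a j + 1) : ℝ) := by exact_mod_cast (h1.trans_le h2).le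
  have h5 : (1 : ℝ) ≤ a j := by exact_mod_cast h.pos j hj
  have h6 : ((a j + 1 : ℕ) : ℝ) ≤ 2 * a j := by push_cast; linarith
  calc (j : ℝ) ≤ ((a j + 1 : ℕ) : ℝ) * (a (a j + 1) : ℝ) := h4
    _ ≤ (2 * a j) * (7 * t ^ 2) := by gcongr
    _ = 14 * t ^ 2 * a j := by ring

/-- the main estimate -/
theorem main (h : IsNested r a) (t : ℝ) (ht : 115 ≤ t) (htr : t ^ 3 = r) :
    ∀ m : ℕ, r ≤ m → (a m : ℝ) ≤ 115 / t * m - 3 := by
  have ht0 : 0 < t := by linarith
  have ht1 : 1 ≤ t := by linarith
  have htt : t ≤ t ^ 3 := by nlinarith [sq_nonneg t, mul_self_nonneg (t - 1)]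
  have hr3 : 3 ≤ r := by
    have : (3 : ℝ) ≤ r := by rw [← htr]; linarith
    exact_mod_cast this
  intro m
  induction m using Nat.strong_induction_on with
  | _ m ih =>
    intro hm
    have hm1 : 1 ≤ m := by omega
    have hmr : t ^ 3 ≤ m := by rw [htr]; exact_mod_cast hm
    have hmt : 1 ≤ m / t := by rw [le_div_iff₀ ht0]; linarith
    obtain ⟨n, hn⟩ : ∃ n, a m = n + 1 := ⟨a m - 1, by have := h.pos m hm1; omega⟩
    have hwin := win_le h m hm1
    rw [hn, Nat.add_sub_cancel] at hwin
    have key : (n : ℝ) + 1 ≤ 112 * (m / t) → (a m : ℝ) ≤ 115 / t * m - 3 := by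
      intro hk
      rw [hn]
      push_cast
      have e : 115 / t * m = 112 * (m / t) + 3 * (m / t) := by ring
      rw [e]
      linarith
    rcases le_or_gt n r with hnr | hnr
    · -- the initial range
      apply key
      have h1 := cube_le' h m hm1 (by omega)
      rw [hn, Nat.add_sub_cancel] at h1
      have h2 : (n : ℝ) ^ 3 ≤ 32 * (m : ℝ) ^ 2 := by exact_mod_cast h1
      have h3 : (n : ℝ) ^ 3 * t ^ 3 ≤ 32 * (m : ℝ) ^ 3 := by
        calc (n : ℝ) ^ 3 * t ^ 3 ≤ (32 * (m : ℝ) ^ 2) * m := by gcongr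
          _ = 32 * (m : ℝ) ^ 3 := by ring
      have h4 : (n : ℝ) * t ≤ 4 * m := by
        by_contra hc
        push Not at hc
        have h5 := pow_lt_pow_left₀ hc (by positivity) (by norm_num : 3 ≠ 0)
        have h6 : (0 : ℝ) ≤ (m : ℝ) ^ 3 := by positivity
        nlinarith
      have h5 : (n : ℝ) ≤ 4 * (m / t) := by
        rw [← mul_div_assoc, le_div_iff₀ ht0]; exact h4
      linarith
    · rcases lt_or_ge (a (n + 1 - r)) r with hq | hq
      · -- the second range
        apply key
        set j := (n + 1) / 2 with hj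
        have hj1 : 1 ≤ j := by omega
        have hjr : a j ≤ r := by
          rcases le_or_gt j (n + 1 - r) with h1 | h1
          · exact ((monotone h h1).trans_lt hq).le
          · have h2 : j ≤ r := by omega
            exact (a_le h j).trans h2
        have h1 := win_ge h n r le_rfl hnr.le
        have h2 := lower_first h t ht1 htr j hj1 hjr
        have h3 : ((r : ℝ) / 2) * a j ≤ m := by
          have h4 : (((r + 1) / 2 : ℕ) : ℝ) * (a j : ℝ) ≤ m := by exact_mod_cast h1.trans hwin
          have h5 : (r : ℝ) / 2 ≤ (((r + 1) / 2 : ℕ) : ℝ) := by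
            have h6 : r ≤ 2 * ((r + 1) / 2) := by omega
            have h7 : (r : ℝ) ≤ 2 * (((r + 1) / 2 : ℕ) : ℝ) := by exact_mod_cast h6
            linarith
          calc ((r : ℝ) / 2) * a j ≤ (((r + 1) / 2 : ℕ) : ℝ) * (a j : ℝ) := by gcongr
            _ ≤ m := h4
        have h4 : (n : ℝ) ≤ 2 * j := by
          have : n ≤ 2 * j := by omega
          exact_mod_cast this
        have h5 : (n : ℝ) * t ≤ 56 * m := by
          rw [← htr] at h3
          have h6 : (n : ℝ) ≤ 28 * t ^ 2 * a j := by linarith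
          calc (n : ℝ) * t ≤ (28 * t ^ 2 * a j) * t := by gcongr
            _ = 56 * (t ^ 3 / 2 * a j) := by ring
            _ ≤ 56 * m := by linarith
        have h6 : (n : ℝ) ≤ 56 * (m / t) := by
          rw [← mul_div_assoc, le_div_iff₀ ht0]; exact h5
        have h7 : (1 : ℝ) ≤ n := by
          have : 1 ≤ n := by omega
          exact_mod_cast this
        linarith
      · -- the inductive range
        set q := a (n + 1 - r) with hqd
        have h1 : r * q ≤ m := (win_ge_r h n).trans hwin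
        have h2 : n + 1 - r < r * a (q + 1) := (lt_win h (n + 1 - r)).trans_le (win_le_r h (q + 1))
        have h3 : q + 1 < m := by nlinarith
        have h4 := ih (q + 1) h3 (by omega)
        have h5 : n + 1 ≤ r * a (q + 1) + r := by omega
        have h6 : (n : ℝ) + 1 ≤ r * (a (q + 1) : ℝ) + r := by exact_mod_cast h5
        have h7 : (r : ℝ) * q ≤ m := by exact_mod_cast h1
        rw [hn]
        push_cast at h4 ⊢
        have hlam : 115 / t ≤ 1 := by rw [div_le_one ht0]; exact ht
        have hlam0 : 0 ≤ 115 / t := by positivity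
        have hr3' : (3 : ℝ) ≤ r := by exact_mod_cast hr3
        have h8 : (r : ℝ) * (a (q + 1) : ℝ) ≤ r * (115 / t * (q + 1) - 3) := by gcongr
        have h9 : 115 / t * (r * q) ≤ 115 / t * m := by gcongr
        nlinarith

theorem bdd (h : IsNested r a) (n : ℕ) : (a n : ℝ) / n ≤ 1 := by
  apply div_le_one_of_le₀ _ (Nat.cast_nonneg n)
  exact_mod_cast a_le h n

theorem Lmax_le (c : ℝ) (hc : ∀ᶠ n : ℕ in atTop, (a n : ℝ) / n ≤ c) :
    Lmax a ≤ c := by
  apply limsup_le_of_le _ hc
  refine ⟨0, fun b hb => ?_⟩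
  rw [eventually_map] at hb
  obtain ⟨n, hn⟩ := hb.exists
  exact (by positivity : (0 : ℝ) ≤ (a n : ℝ) / n).trans hn

theorem Lmax_nonneg (h : IsNested r a) : 0 ≤ Lmax a := by
  apply le_limsup_of_frequently_le
  · exact Frequently.of_forall fun n => by positivity
  · exact ⟨1, by rw [eventually_map]; exact Eventually.of_forall fun n => bdd h n⟩

theorem bound (h : IsNested r a) (hr : 2 ≤ r) : Lmax a ≤ 115 * (r : ℝ) ^ (-(1 / 3) : ℝ) := by
  set t : ℝ := (r : ℝ) ^ (1 / 3 : ℝ) with ht
  have hr0 : (0 : ℝ) < r := by exact_mod_cast (by omega : 0 < r)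
  have ht0 : 0 < t := Real.rpow_pos_of_pos hr0 _
  have htr : t ^ 3 = r := by
    rw [ht, ← Real.rpow_natCast, ← Real.rpow_mul hr0.le]
    norm_num
  have hinv : (r : ℝ) ^ (-(1 / 3) : ℝ) = t⁻¹ := Real.rpow_neg hr0.le _
  rw [hinv, ← div_eq_mul_inv]
  apply Lmax_le
  rcases le_or_gt 115 t with h1 | h1
  · filter_upwards [eventually_ge_atTop r] with n hn
    have h2 := main h t h1 htr n hn
    have hn0 : (0 : ℝ) < n := by exact_mod_cast (by omega : 0 < n)
    rw [div_le_iff₀ hn0]
    linarith
  · refine Eventually.of_forall fun n => (bdd h n).trans ?_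
    rw [le_div_iff₀ ht0]
    linarith

end Aux

open Aux

/-- **Main result.** For every `r ≥ 2` let `a_r` be the almost Golomb sequence of order `r`, or any
other nondecreasing sequence of positive integers with `a (a(n) + ... + a(n-r+1)) = n`. Then
`limsup_{n → ∞} a_r(n) / n ≤ 115 r^(-1/3)` for every `r ≥ 2`, and consequently this limsup tends to
`0` as `r → ∞`. -/
theorem result (a : ℕ → ℕ → ℕ) (ha : ∀ r, 2 ≤ r → IsNested r (a r)) :
    (∀ r, 2 ≤ r → Lmax (a r) ≤ 115 * (r : ℝ) ^ (-(1 / 3) : ℝ)) ∧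
      Tendsto (fun r => Lmax (a r)) atTop (𝓝 0) := by
  refine ⟨fun r hr => bound (ha r hr) hr, ?_⟩
  have h1 : Tendsto (fun r : ℕ => 115 * (r : ℝ) ^ (-(1 / 3) : ℝ)) atTop (𝓝 0) := by
    have h2 := (tendsto_rpow_neg_atTop (by norm_num : (0 : ℝ) < 1 / 3)).comp
      tendsto_natCast_atTop_atTop
    have h3 := h2.const_mul 115
    rw [mul_zero] at h3
    exact h3
  refine squeeze_zero' ?_ ?_ h1
  · filter_upwards [eventually_ge_atTop 2] with r hr
    exact Lmax_nonneg (ha r hr)
  · filter_upwards [eventually_ge_atTop 2] with r hr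
    exact bound (ha r hr) hr

end Pool.Agent.Results.MP_04502c_nt.LimsupDecay
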